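import Pool.Agent.Q17.WR.Stm2
import Pool.Agent.Q17.TC.All
import Pool.Agent.Q17.TC.ASM4
import Pool.Agent.Y63.AWC.Deg

/-!
# Project WR, job ZED: characters of defect zero of a wreath product
-/

set_option autoImplicit false
set_option linter.style.haveILetI false
set_option linter.unusedSectionVars false

open scoped Classical

noncomputable section

namespace Pool.Agent.Q150.WR

open Pool.Agent.Helper884
open Pool.Agent.H254R3.IN (IsIrr)
open Pool.Agent.Y63.AWC (IsIrreducibleCharacter numDefectZero)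
open Pool.Agent.Q17.WR
open Pool.Agent.Q17.TC (Ov t_HOM t_LFT t_SQ)

section base

variable {G A Ω : Type} [Group G] [Group A] [MulAction A Ω]

theorem conj_left (x n : Wr G A Ω) (hn : n.right = 1) (ω : Ω) :
    (x * n * x⁻¹).left ω = x.left ω * n.left (x.right⁻¹ • ω) * (x.left ω)⁻¹ := by
  have h1 : (x * n * x⁻¹).left ω = x.left ω * n.left (x.right⁻¹ • ω) *
      (x.left ((x.right⁻¹)⁻¹ • (x.right * n.right)⁻¹ • ω))⁻¹ := rfl
  rw [h1, hn, mul_one, inv_inv, smul_inv_smul]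

/-- the base group is a power of `G` -/
def bsE : (Ω → G) ≃* Bs G A Ω where
  toFun m := ⟨SemidirectProduct.inl m, by
    unfold Bs
    rw [MonoidHom.mem_ker]
    exact SemidirectProduct.rightHom_inl m⟩
  invFun n := n.1.left
  left_inv m := rfl
  right_inv n := by
    apply Subtype.ext
    have hn : n.1.right = 1 := n.2
    apply SemidirectProduct.ext
    · rfl
    · rw [hn]
      rfl
  map_mul' m m' := by
    apply Subtype.ext
    exact map_mul _ _ _

variable [Fintype Ω]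

/-- the characters of the base group -/
def th (f : Ω → G → ℂ) (n : Bs G A Ω) : ℂ := prf f (n : Wr G A Ω).left

theorem th_conj (f : Ω → G → ℂ) (hf : ∀ ω, IsIrr (f ω)) (x : Wr G A Ω) (n : Bs G A Ω) :
    th f (MulAut.conjNormal x n) = th (fun ω => f (x.right • ω)) n := by
  have h1 : ((MulAut.conjNormal x n : Bs G A Ω) : Wr G A Ω) = x * n * x⁻¹ :=
    MulAut.conjNormal_apply x n
  unfold th prf
  rw [h1]
  have h2 : ∀ ω, f ω ((x * (n : Wr G A Ω) * x⁻¹).left ω) =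
      f ω ((n : Wr G A Ω).left (x.right⁻¹ • ω)) := by
    intro ω
    rw [conj_left x n n.2, (hf ω).conj]
  rw [Finset.prod_congr rfl fun ω _ => h2 ω]
  refine Fintype.prod_equiv (MulAction.toPerm x.right⁻¹) _ _ fun ω => ?_
  simp only [MulAction.toPerm_apply, smul_inv_smul]

end base

section main

variable {G A Ω : Type} [Group G] [Group A] [MulAction A Ω] [Fintype G] [Fintype A] [Fintype Ω]
  [Fintype (Wr G A Ω)]

omit [Fintype A] [Fintype (Wr G A Ω)] in
theorem th_irr (hZ : S_ZPR) (f : Ω → G → ℂ) (hf : ∀ ω, IsIrr (f ω)) :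
    IsIrr (th f : Bs G A Ω → ℂ) :=
  Pool.Agent.Y62.irr_comp ((hZ G Ω).1 f hf) (bsE (G := G) (A := A) (Ω := Ω)).symm

omit [Fintype A] [Fintype (Wr G A Ω)] in
theorem th_surj (hZ : S_ZPR) (η : Bs G A Ω → ℂ) (hη : IsIrr η) :
    ∃ f : Ω → G → ℂ, (∀ ω, IsIrr (f ω)) ∧ η = th f := by
  obtain ⟨f, hf, h⟩ := (hZ G Ω).2.1 _ (Pool.Agent.Y62.irr_comp hη (bsE (G := G) (A := A) (Ω := Ω)))
  refine ⟨f, hf, ?_⟩
  funext n
  have h1 := congrFun h (bsE.symm n)
  simp only [MulEquiv.apply_symm_apply] at h1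
  exact h1

omit [Fintype A] [Fintype (Wr G A Ω)] in
theorem th_inj (hZ : S_ZPR) (f f' : Ω → G → ℂ) (hf : ∀ ω, IsIrr (f ω)) (hf' : ∀ ω, IsIrr (f' ω))
    (h : (th f : Bs G A Ω → ℂ) = th f') : f = f' := by
  apply (hZ G Ω).2.2 f f' hf hf'
  funext m
  exact congrFun h (bsE m)

omit [Fintype A] [Fintype (Wr G A Ω)] in
theorem mem_Tf_iff (hZ : S_ZPR) (f : Ω → G → ℂ) (hf : ∀ ω, IsIrr (f ω)) (x : Wr G A Ω) :
    x ∈ Tf G (A := A) f ↔ ∀ n : Bs G A Ω, th f (MulAut.conjNormal x n) = th f n := by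
  constructor
  · intro hx n
    rw [th_conj f hf]
    have h1 : (fun ω => f (x.right • ω)) = f := funext fun ω => hx ω
    rw [h1]
  · intro h
    have h1 : (th (fun ω => f (x.right • ω)) : Bs G A Ω → ℂ) = th f := by
      funext n
      rw [← th_conj f hf]
      exact h n
    have h2 := th_inj hZ _ _ (fun ω => hf _) hf h1
    exact fun ω => congrFun h2 ω

theorem card_Wr : Nat.card (Wr G A Ω) = Nat.card (Ω → G) * Nat.card A := by
  rw [← Nat.card_prod]
  exact Nat.card_congr SemidirectProduct.equivProd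

theorem card_Tf (f : Ω → G → ℂ) : Nat.card (Tf G (A := A) f) =
    Nat.card (Ω → G) * Nat.card (Sf (A := A) f) := by
  rw [← Nat.card_prod]
  refine Nat.card_congr
    { toFun := fun x => (x.1.left, ⟨x.1.right, x.2⟩)
      invFun := fun y => ⟨⟨y.1, y.2.1⟩, y.2.2⟩
      left_inv := fun x => rfl
      right_inv := fun y => rfl }

/-- the correspondence over one character of the base group -/
theorem corr (hZ : S_ZPR) (hE : S_ZEX) (f : Ω → G → ℂ) (hf : ∀ ω, IsIrr (f ω)) :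
    ∃ e : {χ : Wr G A Ω → ℂ // IsIrr χ ∧ Ov (Bs G A Ω) χ (th f)} ≃
      {ψ : Sf (A := A) f → ℂ // IsIrr ψ},
      ∀ χ, χ.1 1 * (Nat.card (Sf (A := A) f) : ℂ) = (Nat.card A : ℂ) * (prf f 1 * (e χ).1 1) := by
  obtain ⟨e1, h1⟩ := Pool.Agent.Q239.TC.t_CL t_LFT t_SQ (Wr G A Ω) (Bs G A Ω) (th f)
    (th_irr hZ f hf) (Tf G (A := A) f) (mem_Tf_iff hZ f hf)
  obtain ⟨e2, h2⟩ := hE G A Ω f hf
  refine ⟨e1.symm.trans e2, fun χ => ?_⟩
  have h3 := h1 (e1.symm χ) 1
  rw [Equiv.apply_symm_apply] at h3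
  have h4 : ∀ x : Wr G A Ω, (if h : x⁻¹ * 1 * x ∈ Tf G (A := A) f then
      ((e1.symm χ : _) : Tf G (A := A) f → ℂ) ⟨x⁻¹ * 1 * x, h⟩ else 0) =
      ((e1.symm χ : _) : Tf G (A := A) f → ℂ) 1 := by
    intro x
    have h5 : x⁻¹ * 1 * x = 1 := by group
    rw [dif_pos (by rw [h5]; exact one_mem _)]
    have h6 : (⟨x⁻¹ * 1 * x, by rw [h5]; exact one_mem _⟩ : Tf G (A := A) f) = 1 :=
      Subtype.ext h5
    exact congrArg ((e1.symm χ).1) h6
  rw [Finset.sum_congr rfl fun x _ => h4 x, Finset.sum_const, Finset.card_univ, nsmul_eq_mul,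
    ← Nat.card_eq_fintype_card, card_Wr, card_Tf] at h3
  have h6 := h2 (e1.symm χ)
  have h7 : ((e1.symm.trans e2) χ).1 1 = (e2 (e1.symm χ)).1 1 := rfl
  rw [h7, h3]
  rw [h6]
  have hc1 : ((Nat.card (Ω → G) : ℕ) : ℂ) ≠ 0 := by exact_mod_cast Nat.card_pos.ne'
  have hc2 : ((Nat.card (Sf (A := A) f) : ℕ) : ℂ) ≠ 0 := by exact_mod_cast Nat.card_pos.ne'
  push_cast
  field_simp

/-- defect zero -/
def DZ (p : ℕ) (H : Type) [Group H] (χ : H → ℂ) : Prop :=
  ∃ n : ℕ, χ 1 = (n : ℂ) ∧ n.factorization p = (Nat.card H).factorization p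

theorem dz_iff (p : ℕ) [Fact p.Prime] (f : Ω → G → ℂ) (hf : ∀ ω, IsIrr (f ω))
    (χ : Wr G A Ω → ℂ) (hχ : IsIrr χ) (ψ : Sf (A := A) f → ℂ) (hψ : IsIrr ψ)
    (h : χ 1 * (Nat.card (Sf (A := A) f) : ℂ) = (Nat.card A : ℂ) * (prf f 1 * ψ 1)) :
    DZ p (Wr G A Ω) χ ↔ (∀ ω, DZ p G (f ω)) ∧ DZ p (Sf (A := A) f) ψ := by
  obtain ⟨n, hn0, hn⟩ := hχ.deg
  obtain ⟨e, he0, he⟩ := hψ.deg
  have hd : ∀ ω, ∃ d : ℕ, 0 < d ∧ (d : ℂ) = f ω 1 := fun ω => (hf ω).deg
  choose d hd0 hd using hd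
  have h1 : n * Nat.card (Sf (A := A) f) = Nat.card A * ((∏ ω, d ω) * e) := by
    have h2 : prf f 1 = ∏ ω, (d ω : ℂ) := by
      unfold prf
      exact Finset.prod_congr rfl fun ω _ => (hd ω).symm
    rw [← hn, h2, ← he] at h
    exact_mod_cast h
  have hdv : ∀ ω, (d ω).factorization p ≤ (Nat.card G).factorization p := by
    intro ω
    have := Pool.Agent.Y63.AWC.deg_dvd (chi := f ω) (hf ω) (n := d ω) (hd ω).symm
    exact (Nat.factorization_le_iff_dvd (hd0 ω).ne' Nat.card_pos.ne').2 this p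
  have hev : e.factorization p ≤ (Nat.card (Sf (A := A) f)).factorization p := by
    have := Pool.Agent.Y63.AWC.deg_dvd (chi := ψ) hψ (n := e) he.symm
    exact (Nat.factorization_le_iff_dvd he0.ne' Nat.card_pos.ne').2 this p
  have hS0 : Nat.card (Sf (A := A) f) ≠ 0 := Nat.card_pos.ne'
  have hA0 : Nat.card A ≠ 0 := Nat.card_pos.ne'
  have hG0 : Nat.card G ≠ 0 := Nat.card_pos.ne'
  have hP0 : ∏ ω, d ω ≠ 0 := Finset.prod_ne_zero_iff.2 fun ω _ => (hd0 ω).ne'
  have h3 : (n * Nat.card (Sf (A := A) f)).factorization p =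
      (Nat.card A * ((∏ ω, d ω) * e)).factorization p := by rw [h1]
  rw [Nat.factorization_mul hn0.ne' hS0, Nat.factorization_mul hA0 (mul_ne_zero hP0 he0.ne'),
    Nat.factorization_mul hP0 he0.ne', Nat.factorization_prod fun ω _ => (hd0 ω).ne'] at h3
  simp only [Finsupp.add_apply, Finsupp.finsetSum_apply] at h3
  have h4 : (Nat.card (Wr G A Ω)).factorization p =
      ∑ _ω : Ω, (Nat.card G).factorization p + (Nat.card A).factorization p := by
    rw [card_Wr, Nat.card_fun, Nat.factorization_mul (pow_ne_zero _ hG0) hA0,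
      Nat.factorization_pow, Finset.sum_const, Finset.card_univ, Nat.card_eq_fintype_card (α := Ω)]
    rfl
  have e1 : DZ p (Wr G A Ω) χ ↔ n.factorization p = (Nat.card (Wr G A Ω)).factorization p := by
    unfold DZ
    constructor
    · rintro ⟨n', h5, h6⟩
      rw [← hn] at h5
      have : n = n' := by exact_mod_cast h5
      rw [this]
      exact h6
    · intro h5
      exact ⟨n, hn.symm, h5⟩
  have e2 : DZ p (Sf (A := A) f) ψ ↔
      e.factorization p = (Nat.card (Sf (A := A) f)).factorization p := by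
    unfold DZ
    constructor
    · rintro ⟨n', h5, h6⟩
      rw [← he] at h5
      have : e = n' := by exact_mod_cast h5
      rw [this]
      exact h6
    · intro h5
      exact ⟨e, he.symm, h5⟩
  have e3 : ∀ ω, DZ p G (f ω) ↔ (d ω).factorization p = (Nat.card G).factorization p := by
    intro ω
    unfold DZ
    constructor
    · rintro ⟨n', h5, h6⟩
      rw [← hd ω] at h5
      have : d ω = n' := by exact_mod_cast h5
      rw [this]
      exact h6
    · intro h5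
      exact ⟨d ω, (hd ω).symm, h5⟩
  rw [e1, e2, forall_congr' e3, h4]
  have hle : ∑ ω, (d ω).factorization p ≤ ∑ _ω : Ω, (Nat.card G).factorization p :=
    Finset.sum_le_sum fun ω _ => hdv ω
  constructor
  · intro h5
    have h6 : ∑ ω, (d ω).factorization p = ∑ _ω : Ω, (Nat.card G).factorization p := by omega
    refine ⟨fun ω => ?_, by omega⟩
    exact (Finset.sum_eq_sum_iff_of_le fun ω _ => hdv ω).1 h6 ω (Finset.mem_univ ω)
  · rintro ⟨h5, h6⟩
    have h7 : ∑ ω, (d ω).factorization p = ∑ _ω : Ω, (Nat.card G).factorization p :=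
      Finset.sum_congr rfl fun ω _ => h5 ω
    omega

theorem nDZ_eq (p : ℕ) (H : Type) [Group H] [Fintype H] :
    numDefectZero p H = ((IC.Irr H).filter (DZ p H)).card := by
  unfold numDefectZero
  rw [Nat.subtype_card]
  intro χ
  rw [Finset.mem_filter, IC.mem_Irr]
  rfl

theorem cf_eq (p : ℕ) [Fact p.Prime] (hZ : S_ZPR) (hE : S_ZEX) (f : Ω → G → ℂ)
    (hf : ∀ ω, IsIrr (f ω)) :
    (((IC.Irr (Wr G A Ω)).filter (DZ p (Wr G A Ω))).filter
      (fun χ => Ov (Bs G A Ω) χ (th f))).card =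
      if ∀ ω, DZ p G (f ω) then numDefectZero p (Sf (A := A) f) else 0 := by
  obtain ⟨e, he⟩ := corr (A := A) hZ hE f hf
  have h1 : (((IC.Irr (Wr G A Ω)).filter (DZ p (Wr G A Ω))).filter
      (fun χ => Ov (Bs G A Ω) χ (th f))).card =
      Nat.card {x : {χ : Wr G A Ω → ℂ // IsIrr χ ∧ Ov (Bs G A Ω) χ (th f)} //
        DZ p (Wr G A Ω) x.1} := by
    rw [Nat.card_congr (Equiv.subtypeSubtypeEquivSubtypeInter
      (fun χ : Wr G A Ω → ℂ => IsIrr χ ∧ Ov (Bs G A Ω) χ (th f)) (DZ p (Wr G A Ω)))]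
    rw [Nat.subtype_card]
    intro χ
    rw [Finset.mem_filter, Finset.mem_filter, IC.mem_Irr]
    constructor
    · rintro ⟨⟨h1, h2⟩, h3⟩
      exact ⟨⟨h1, h3⟩, h2⟩
    · rintro ⟨⟨h1, h3⟩, h2⟩
      exact ⟨⟨h1, h2⟩, h3⟩
  rw [h1]
  by_cases hall : ∀ ω, DZ p G (f ω)
  · rw [if_pos hall]
    have h2 : numDefectZero p (Sf (A := A) f) =
        Nat.card {y : {ψ : Sf (A := A) f → ℂ // IsIrr ψ} // DZ p (Sf (A := A) f) y.1} := by
      rw [Nat.card_congr (Equiv.subtypeSubtypeEquivSubtypeInter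
        (fun ψ : Sf (A := A) f → ℂ => IsIrr ψ) (DZ p (Sf (A := A) f)))]
      rfl
    rw [h2]
    refine Nat.card_congr (e.subtypeEquiv fun χ => ?_)
    rw [dz_iff p f hf χ.1 χ.2.1 (e χ).1 (e χ).2 (he χ)]
    exact ⟨fun h => h.2, fun h => ⟨hall, h⟩⟩
  · rw [if_neg hall]
    have : IsEmpty {x : {χ : Wr G A Ω → ℂ // IsIrr χ ∧ Ov (Bs G A Ω) χ (th f)} //
        DZ p (Wr G A Ω) x.1} := by
      refine ⟨fun x => hall ?_⟩
      exact ((dz_iff p f hf x.1.1 x.1.2.1 (e x.1).1 (e x.1).2 (he x.1)).1 x.2).1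
    exact Nat.card_of_isEmpty

/-- a character of the wreath product is over some character of the base group -/
theorem ov_exists (hZ : S_ZPR) (χ : Wr G A Ω → ℂ) (hχ : IsIrr χ) :
    ∃ f : Ω → G → ℂ, (∀ ω, IsIrr (f ω)) ∧ Ov (Bs G A Ω) χ (th f) := by
  by_contra hcon
  push Not at hcon
  have h1 : IC.IsClass (fun n : Bs G A Ω => χ n) := fun g y => hχ.conj (g : Wr G A Ω) y
  have h2 := congrFun (IC.expand _ h1) 1
  rw [Finset.sum_apply] at h2
  have h3 : ∑ c ∈ IC.Irr (Bs G A Ω), (IC.B (fun n : Bs G A Ω => χ n) c • c) 1 = 0 := by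
    apply Finset.sum_eq_zero
    intro η hη
    obtain ⟨f, hf, rfl⟩ := th_surj hZ η (IC.mem_Irr.1 hη)
    have h4 := hcon f hf
    unfold Ov at h4
    push Not at h4
    rw [h4, zero_smul]
    rfl
  rw [h3] at h2
  exact hχ.one_ne h2

omit [Fintype A] in
theorem ov_iff (hZ : S_ZPR) (χ : Wr G A Ω → ℂ) (hχ : IsIrr χ) (f₀ : Ω → G → ℂ)
    (hf₀ : ∀ ω, IsIrr (f₀ ω)) (h0 : Ov (Bs G A Ω) χ (th f₀)) (f : Ω → G → ℂ) :
    ((∀ ω, IsIrr (f ω)) ∧ Ov (Bs G A Ω) χ (th f)) ↔ ∃ a : A, f = fun ω => f₀ (a • ω) := by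
  constructor
  · rintro ⟨hf, h⟩
    obtain ⟨x, hx⟩ := Pool.Agent.Q17.TC.clif_conj t_HOM t_LFT t_SQ
      (Pool.Agent.Q239.TC.t_CL t_LFT t_SQ) (th_irr hZ f₀ hf₀) (th_irr hZ f hf) hχ h0 h
    refine ⟨x.right, ?_⟩
    apply th_inj (A := A) hZ _ _ hf (fun ω => hf₀ _)
    rw [hx]
    funext n
    exact th_conj f₀ hf₀ x n
  · rintro ⟨a, rfl⟩
    refine ⟨fun ω => hf₀ _, ?_⟩
    have h1 := (Pool.Agent.Q17.TC.ov_conj (N := Bs G A Ω) (θ := th f₀) hχ
      (SemidirectProduct.inr a)).2 h0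
    have h2 : (fun n : Bs G A Ω => th f₀ (MulAut.conjNormal
        (SemidirectProduct.inr a : Wr G A Ω) n)) = th (fun ω => f₀ (a • ω)) := by
      funext n
      rw [th_conj f₀ hf₀]
      rfl
    rwa [h2] at h1

/-- the sum over the orbit -/
theorem orbit_sum (hZ : S_ZPR) (χ : Wr G A Ω → ℂ) (hχ : IsIrr χ) :
    ∑ f ∈ (Fintype.piFinset fun _ : Ω => IC.Irr G).filter
      (fun f => Ov (Bs G A Ω) χ (th f)), Nat.card (Sf (A := A) f) = Nat.card A := by
  obtain ⟨f₀, hf₀, h0⟩ := ov_exists hZ χ hχ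
  have hmem : ∀ f : Ω → G → ℂ, f ∈ (Fintype.piFinset fun _ : Ω => IC.Irr G).filter
      (fun f => Ov (Bs G A Ω) χ (th f)) ↔ ∃ a : A, f = fun ω => f₀ (a • ω) := by
    intro f
    rw [← ov_iff hZ χ hχ f₀ hf₀ h0 f, Finset.mem_filter, Fintype.mem_piFinset]
    simp only [IC.mem_Irr]
    rfl
  have h1 := Finset.card_eq_sum_card_fiberwise (s := (Finset.univ : Finset A))
    (f := fun a : A => fun ω : Ω => f₀ (a • ω))
    (t := (Fintype.piFinset fun _ : Ω => IC.Irr G).filter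
      (fun f => Ov (Bs G A Ω) χ (th f))) (by
      intro a _
      exact (hmem _).2 ⟨a, rfl⟩)
  rw [Finset.card_univ, ← Nat.card_eq_fintype_card] at h1
  rw [h1]
  refine Finset.sum_congr rfl fun f hf => ?_
  obtain ⟨b, rfl⟩ := (hmem f).1 hf
  rw [Nat.subtype_card ((Finset.univ.filter fun a : A =>
    (fun ω : Ω => f₀ (a • ω)) = fun ω => f₀ (b • ω)).image fun a => b⁻¹ * a)]
  · exact Finset.card_image_of_injective _ (mul_right_injective b⁻¹)
  · intro c
    rw [Finset.mem_image]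
    constructor
    · rintro ⟨a, ha, rfl⟩ ω
      rw [Finset.mem_filter] at ha
      have h2 := congrFun ha.2 ω
      simp only [mul_smul, smul_inv_smul]
      exact h2
    · intro hc
      refine ⟨b * c, ?_, by group⟩
      rw [Finset.mem_filter]
      refine ⟨Finset.mem_univ _, ?_⟩
      funext ω
      have h2 := hc ω
      rw [mul_smul]
      exact h2

theorem main_sum (p : ℕ) [Fact p.Prime] (hZ : S_ZPR) (hE : S_ZEX) :
    ∑ f ∈ Fintype.piFinset (fun _ : Ω => IC.Irr G), Nat.card (Sf (A := A) f) *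
      (if ∀ ω, DZ p G (f ω) then numDefectZero p (Sf (A := A) f) else 0) =
      Nat.card A * numDefectZero p (Wr G A Ω) := by
  rw [nDZ_eq p (Wr G A Ω)]
  have h1 : ∀ f ∈ Fintype.piFinset (fun _ : Ω => IC.Irr G), Nat.card (Sf (A := A) f) *
      (if ∀ ω, DZ p G (f ω) then numDefectZero p (Sf (A := A) f) else 0) =
      ∑ χ ∈ (IC.Irr (Wr G A Ω)).filter (DZ p (Wr G A Ω)),
        (if Ov (Bs G A Ω) χ (th f) then Nat.card (Sf (A := A) f) else 0) := by
    intro f hf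
    rw [← cf_eq p hZ hE f (fun ω => IC.mem_Irr.1 (Fintype.mem_piFinset.1 hf ω)),
      ← Finset.sum_filter, Finset.sum_const, smul_eq_mul, mul_comm]
  rw [Finset.sum_congr rfl h1, Finset.sum_comm]
  have h2 : ∀ χ ∈ (IC.Irr (Wr G A Ω)).filter (DZ p (Wr G A Ω)),
      ∑ f ∈ Fintype.piFinset (fun _ : Ω => IC.Irr G),
        (if Ov (Bs G A Ω) χ (th f) then Nat.card (Sf (A := A) f) else 0) = Nat.card A := by
    intro χ hχ
    rw [← Finset.sum_filter]
    exact orbit_sum hZ χ (IC.mem_Irr.1 (Finset.mem_filter.1 hχ).1)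
  rw [Finset.sum_congr rfl h2, Finset.sum_const, smul_eq_mul, mul_comm]

end main

theorem Sf_val {A Ω X : Type} [Group A] [MulAction A Ω] {P : X → Prop} (f : Ω → {x // P x}) :
    Sf (A := A) f = Sf (A := A) (fun ω => (f ω).1) := by
  ext a
  constructor
  · intro h ω
    exact congrArg Subtype.val (h ω)
  · intro h ω
    exact Subtype.ext (h ω)

theorem t_ZED : S_ZPR → S_ZEX → S_ZED := by
  intro hZ hE p _ G A Ω _ _ _ _ _ _
  letI : Fintype G := Fintype.ofFinite G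
  letI : Fintype A := Fintype.ofFinite A
  letI : Fintype Ω := Fintype.ofFinite Ω
  haveI : Finite (Wr G A Ω) := Finite.of_equiv _ SemidirectProduct.equivProd.symm
  letI : Fintype (Wr G A Ω) := Fintype.ofFinite _
  have hfin : Finite (DZt p G) := by
    have h1 := (IC.irr_finite (G := G)).subset (t := {χ : G → ℂ | IsIrreducibleCharacter χ ∧
      ∃ n : ℕ, χ 1 = (n : ℂ) ∧ n.factorization p = (Nat.card G).factorization p})
      (fun χ hχ => hχ.1)
    exact h1
  letI : Fintype (DZt p G) := Fintype.ofFinite _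
  rw [finsum_eq_sum_of_fintype]
  have h1 := main_sum (G := G) (A := A) (Ω := Ω) p hZ hE
  have h2 : (Nat.card A : ℤ) * (numDefectZero p (Wr G A Ω) : ℤ) =
      ((Nat.card A * numDefectZero p (Wr G A Ω) : ℕ) : ℤ) := by push_cast; rfl
  rw [h2, ← h1, Nat.cast_sum]
  symm
  have h3 : ∀ f ∈ Fintype.piFinset (fun _ : Ω => IC.Irr G),
      ((Nat.card (Sf (A := A) f) * (if ∀ ω, DZ p G (f ω) then
        numDefectZero p (Sf (A := A) f) else 0) : ℕ) : ℤ) =
      if ∀ ω, DZ p G (f ω) then (Nat.card (Sf (A := A) f) : ℤ) *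
        (numDefectZero p (Sf (A := A) f) : ℤ) else 0 := by
    intro f _
    split_ifs <;> push_cast <;> simp
  rw [Finset.sum_congr rfl h3, ← Finset.sum_filter]
  refine Finset.sum_bij (fun f _ => fun ω => (f ω).1) ?_ ?_ ?_ ?_
  · intro f _
    rw [Finset.mem_filter, Fintype.mem_piFinset]
    exact ⟨fun ω => IC.mem_Irr.2 (f ω).2.1, fun ω => (f ω).2.2⟩
  · intro f _ f' _ h
    funext ω
    exact Subtype.ext (congrFun h ω)
  · intro f hf
    rw [Finset.mem_filter, Fintype.mem_piFinset] at hf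
    exact ⟨fun ω => ⟨f ω, IC.mem_Irr.1 (hf.1 ω), hf.2 ω⟩, Finset.mem_univ _, rfl⟩
  · intro f _
    rw [Sf_val f]

end Pool.Agent.Q150.WR
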