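import Pool.Agent.Q17.WR.Stm2
import Pool.Agent.Q17.TC.All

/-!
# Project WR, job ZPR: the irreducible characters of a power of a group
-/

set_option autoImplicit false

open scoped Classical

noncomputable section

namespace Pool.Agent.Q150.WR

open Pool.Agent.Helper884
open Pool.Agent.H254R3.IN (IsIrr)
open Pool.Agent.Q17.WR
open Pool.Agent.Q17.TC (t_IRN t_HOM)

variable {G Ω : Type} [Group G] [Fintype G] [Fintype Ω]

theorem B_prf (f f' : Ω → G → ℂ) : IC.B (prf f) (prf f') = ∏ ω, IC.B (f ω) (f' ω) := by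
  unfold IC.B prf
  rw [Finset.prod_mul_distrib, Finset.prod_const, Finset.card_univ, Finset.prod_univ_sum,
    Fintype.piFinset_univ]
  congr 1
  · rw [Nat.card_fun, Nat.card_eq_fintype_card (α := Ω), Nat.cast_pow, inv_pow]
  · refine Finset.sum_congr rfl fun m _ => ?_
    rw [← Finset.prod_mul_distrib]
    rfl

theorem zpr_a (hZRP : S_ZRP) (f : Ω → G → ℂ) (hf : ∀ ω, IsIrr (f ω)) : IsIrr (prf f) := by
  obtain ⟨W, i1, i2, i3, ρ, u, hρ, -⟩ := hZRP G (Equiv.Perm Ω) Ω f hf
  have h1 : IC.B ρ.character ρ.character = 1 := by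
    rw [hρ, B_prf]
    apply Finset.prod_eq_one
    intro ω _
    have := IC.B_irr (chi := f ω) (psi := f ω) (hf ω) (hf ω)
    rwa [if_pos rfl] at this
  have h2 := t_IRN t_HOM (Ω → G) W ρ h1
  rwa [hρ] at h2

/-- the function `δ` -/
def del (G : Type) [Group G] (g : G) : ℂ := if g = 1 then 1 else 0

theorem del_class (G : Type) [Group G] [Fintype G] : IC.IsClass (del G) := by
  intro g y
  unfold del
  by_cases h : g = 1
  · rw [h]
    simp
  · rw [if_neg h, if_neg]
    intro h'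
    apply h
    have := congrArg (fun z => y⁻¹ * z * y) h'
    simpa [mul_assoc] using this

theorem B_del (H : Type) [Group H] [Fintype H] (θ : H → ℂ) :
    IC.B (del H) θ = (Nat.card H : ℂ)⁻¹ * θ 1 := by
  unfold IC.B del
  congr 1
  rw [Finset.sum_eq_single 1]
  · simp
  · intro b _ hb
    rw [if_neg hb, zero_mul]
  · intro h
    exact absurd (Finset.mem_univ _) h

theorem del_prod : del (Ω → G) = ∑ f ∈ Fintype.piFinset (fun _ : Ω => IC.Irr G),
    (∏ ω, IC.B (del G) (f ω)) • prf f := by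
  funext m
  have h1 : del (Ω → G) m = ∏ ω, del G (m ω) := by
    unfold del
    by_cases h : m = 1
    · rw [if_pos h, h]
      simp
    · rw [if_neg h]
      have h2 : ∃ ω, m ω ≠ 1 := by
        by_contra hcon
        push Not at hcon
        exact h (funext hcon)
      obtain ⟨ω, hω⟩ := h2
      symm
      apply Finset.prod_eq_zero (Finset.mem_univ ω)
      rw [if_neg hω]
  rw [h1]
  have h2 : ∀ ω, del G (m ω) = ∑ chi ∈ IC.Irr G, IC.B (del G) chi * chi (m ω) := by
    intro ω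
    have := congrFun (IC.expand (del G) (del_class G)) (m ω)
    rw [this, Finset.sum_apply]
    rfl
  rw [Finset.prod_congr rfl fun ω _ => h2 ω, Finset.prod_univ_sum, Finset.sum_apply]
  refine Finset.sum_congr rfl fun f _ => ?_
  rw [Finset.prod_mul_distrib]
  rfl

theorem zpr_b (hZRP : S_ZRP) (θ : (Ω → G) → ℂ) (hθ : IsIrr θ) :
    ∃ f : Ω → G → ℂ, (∀ ω, IsIrr (f ω)) ∧ θ = prf f := by
  by_contra hcon
  push Not at hcon
  have h1 : IC.B (del (Ω → G)) θ = 0 := by
    rw [del_prod, IC.B_sum_left]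
    apply Finset.sum_eq_zero
    intro f hf
    rw [IC.B_smul_left]
    have hf' : ∀ ω, IsIrr (f ω) := fun ω => IC.mem_Irr.1 (Fintype.mem_piFinset.1 hf ω)
    have h2 := IC.B_irr (chi := prf f) (psi := θ) (zpr_a hZRP f hf') hθ
    rw [h2, if_neg (fun h => hcon f hf' h.symm), mul_zero]
  rw [B_del] at h1
  rcases mul_eq_zero.1 h1 with h | h
  · exact inv_ne_zero IC.cardG_ne h
  · exact Pool.Agent.H254R3.IN.IsIrr.one_ne hθ h

theorem zpr_c (f f' : Ω → G → ℂ) (hf : ∀ ω, IsIrr (f ω)) (hf' : ∀ ω, IsIrr (f' ω))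
    (h : prf f = prf f') : f = f' := by
  have h1 : IC.B (prf f) (prf f') = 1 := by
    rw [← h, B_prf]
    apply Finset.prod_eq_one
    intro ω _
    have := IC.B_irr (chi := f ω) (psi := f ω) (hf ω) (hf ω)
    rwa [if_pos rfl] at this
  rw [B_prf] at h1
  funext ω
  by_contra hne
  have h2 := IC.B_irr (chi := f ω) (psi := f' ω) (hf ω) (hf' ω)
  rw [if_neg hne] at h2
  rw [Finset.prod_eq_zero (Finset.mem_univ ω) h2] at h1
  exact zero_ne_one h1

theorem t_ZPR : S_ZRP → S_ZPR := by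
  intro hZRP G Ω _ _ _
  exact ⟨fun f hf => zpr_a hZRP f hf, fun θ hθ => zpr_b hZRP θ hθ,
    fun f f' hf hf' h => zpr_c f f' hf hf' h⟩

end Pool.Agent.Q150.WR
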